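import Pool.Agent.H29.T1.S7

/-!
# T1: statements of the modules, part 1 (facts which follow from `GR`)

`Q = qq O`, `L(m) = Lm R O π m`, `|I| = Nat.card (R ⧸ I)`.
-/

set_option autoImplicit false

namespace Pool.T1

open Polynomial Matrix Pool.HYP Pool.TOW Pool.AVS IsDedekindDomain

section Defs1

variable (R : Type) [CommRing R] {K : Type} [Field K] [Algebra R K]

/-- The elements of the ideal `I` in `L(m)`. -/
def LI (O : ValuationSubring K) (π : K) (I : Ideal R) (m : ℤ) : Set R :=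
  {a | a ∈ Lm R O π m ∧ a ∈ I}

/-- Every leading coefficient of order `m` occurs in `I ∩ L(m)`. -/
def Full (O : ValuationSubring K) (π : K) (I : Ideal R) (m : ℤ) : Prop :=
  ∀ x : K, x ∈ O → ∃ a ∈ LI R O π I m, (algebraMap R K a * π ^ m - x) / π ∈ O

end Defs1

/-- GRA: the size of `L(m)`.  (`L(m)` is a group; `L(m) / L(m-1)` embeds into the residue field of
`O` by `a ↦ a π^m mod π`, the maximal ideal of `O` being `π O` by `GR.val`; `L(-1) = 0`; the residue
characteristic is the characteristic of `K`, which is odd, hence `3 ≤ Q`.) -/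
def GRAStmt : Prop :=
  ∀ (R : Type) [CommRing R] [IsDedekindDomain R] (K : Type) [Field K] [Algebra R K]
    [IsFractionRing R K] (O : ValuationSubring K) (π : K), GR R O π →
    3 ≤ qq O ∧
    (∀ m : ℤ, (Lm R O π m).Finite ∧ (Lm R O π m).ncard ≤ qq O ^ (m + 1).toNat) ∧
    (∀ m : ℤ, m < 0 → Lm R O π m = {0}) ∧
    (∃ c : ℕ, ∀ m : ℕ, qq O ^ (m + 1) ≤ c * (Lm R O π (m : ℤ)).ncard) ∧
    ∀ a : R, ∃ m : ℕ, a ∈ Lm R O π (m : ℤ)

/-- STP: one step.  (The image of `I ∩ L(m)` in the residue field under `a ↦ a π^m` is a subgroup,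
the fibres are cosets of `I ∩ L(m-1)`; a proper subgroup has index at least two.) -/
def STPStmt : Prop :=
  ∀ (R : Type) [CommRing R] [IsDedekindDomain R] (K : Type) [Field K] [Algebra R K]
    [IsFractionRing R K] (O : ValuationSubring K) (π : K), GR R O π →
    ∀ (I : Ideal R) (m : ℤ),
      (LI R O π I m).ncard ≤ qq O * (LI R O π I (m - 1)).ncard ∧
      (Full R O π I m ↔ (LI R O π I m).ncard = qq O * (LI R O π I (m - 1)).ncard) ∧
      (¬ Full R O π I m → 2 * (LI R O π I m).ncard ≤ qq O * (LI R O π I (m - 1)).ncard)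

/-- FUL: multiplication by an element with a pole of order `s`.  (Given `x`, take `a` for
`x / (t π^s)`, then `t a` is the element for `x`.) -/
def FULStmt : Prop :=
  ∀ (R : Type) [CommRing R] [IsDedekindDomain R] (K : Type) [Field K] [Algebra R K]
    [IsFractionRing R K] (O : ValuationSubring K) (π : K), GR R O π →
    ∀ (I : Ideal R) (m s : ℤ) (t : R), t ≠ 0 → algebraMap R K t * π ^ s ∈ O →
      (algebraMap R K t * π ^ s)⁻¹ ∈ O → Full R O π I m → Full R O π I (m + s)

/-- FUC: the levels which are not full (pure arithmetic).  `N m` is the size of `I ∩ L(m)`.  (Count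
the `m` with `M ≤ m < M + s l` and `2 N (m + 1) ≤ Q N m`: every one loses a factor two, but between
the levels `M` and `M + s l` at most the factor `c` is lost; if some `m ≥ M + s l` is not full then
neither are `m - s`, `m - 2 s`, ..., at least `l` levels.) -/
def FUCStmt : Prop :=
  ∀ (Q c s : ℕ), 2 ≤ Q → 1 ≤ s → ∃ l : ℕ, ∀ (N : ℕ → ℕ) (F : ℕ → Prop) (M : ℕ) (A : ℕ),
    0 < A → (∀ m, M ≤ m → Q ^ m ≤ c * A * N m) → (∀ m, M ≤ m → A * N m ≤ Q ^ (m + 1)) →
    (∀ m, N (m + 1) ≤ Q * N m) → (∀ m, ¬ F (m + 1) → 2 * N (m + 1) ≤ Q * N m) →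
    (∀ m, F m → F (m + s)) → ∀ m, M + l ≤ m → F m

/-- GRD: the size of a principal ideal.  (By FUC all large levels are full for `I = ⊤`, so
`#L(m+1) = Q #L(m)` for large `m`; `(a) ∩ L(m + n) = a L(m)`, so the image of `L(m + n)` in `R/(a)`
has `#L(m+n) / #L(m) = Q^n` elements, and it is everything for large `m` as `R` is the union of the
`L(m)`.)  For `a` in `L(m)`: `n ≤ m`. -/
def GRDStmt : Prop :=
  ∀ (R : Type) [CommRing R] [IsDedekindDomain R] (K : Type) [Field K] [Algebra R K]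
    [IsFractionRing R K] (O : ValuationSubring K) (π : K), GR R O π →
    ∀ a : R, a ≠ 0 → ∃ n : ℕ, algebraMap R K a * π ^ n ∈ O ∧ (algebraMap R K a * π ^ n)⁻¹ ∈ O ∧
      Nat.card (R ⧸ Ideal.span {a}) = qq O ^ n ∧ ∀ m : ℤ, a ∈ Lm R O π m ↔ (n : ℤ) ≤ m

/-- GRC: the elements of a residue class.  (The class is empty or a coset of `I ∩ L(m)`; if
`0 ≠ a ∈ I ∩ L(m₁)`, `m₁` minimal, then `|I| ≤ |(a)| = Q^(m₁)` by GRD, and `I ∩ L(m)` has at
most `Q^(m - m₁ + 1)` elements by STP.)  The last clause is used for GRB. -/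
def GRCStmt : Prop :=
  ∀ (R : Type) [CommRing R] [IsDedekindDomain R] (K : Type) [Field K] [Algebra R K]
    [IsFractionRing R K] (O : ValuationSubring K) (π : K), GR R O π →
    ∀ (I : Ideal R) (m : ℕ) (r : R), I ≠ ⊥ →
      {a ∈ Lm R O π (m : ℤ) | a - r ∈ I}.ncard * Nat.card (R ⧸ I) ≤
        Nat.card (R ⧸ I) + qq O ^ (m + 1) ∧
      (Nat.card (R ⧸ I) ≤ qq O ^ (m + 1) →
        Nat.card (R ⧸ I) * (LI R O π I (m : ℤ)).ncard ≤ qq O ^ (m + 1)) ∧
      (Lm R O π (m : ℤ)).ncard ≤ Nat.card (R ⧸ I) * (LI R O π I (m : ℤ)).ncard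

/-- GRB: exact equidistribution modulo ideals and at infinity.  (By FUC with `A = |I|` the levels
`m` with `C |I| ≤ Q^m` are full for `I` and for `⊤`, so `#L(m) / #(I ∩ L(m))` does not depend on `m`
for these `m`; it is `|I|`, as for large `m` the set `L(m)` represents all classes.  Then the map
from `L(m)` to `R/I × O/π` is a surjective homomorphism.) -/
def GRBStmt : Prop :=
  ∀ (R : Type) [CommRing R] [IsDedekindDomain R] (K : Type) [Field K] [Algebra R K]
    [IsFractionRing R K] (O : ValuationSubring K) (π : K), GR R O π →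
    ∃ C : ℕ, ∀ (I : Ideal R) (m : ℕ), I ≠ ⊥ → C * Nat.card (R ⧸ I) ≤ qq O ^ m →
      (∀ (r : R) (x : K), x ∈ O →
        {a ∈ Lm R O π (m : ℤ) | a - r ∈ I ∧ (algebraMap R K a * π ^ m - x) / π ∈ O}.ncard *
          Nat.card (R ⧸ I) * qq O = (Lm R O π (m : ℤ)).ncard) ∧
      ∀ r : R, {a ∈ Lm R O π (m : ℤ) | a - r ∈ I}.ncard * Nat.card (R ⧸ I) =
        (Lm R O π (m : ℤ)).ncard

/-- GRE: the primes.  (If `#L(m) > Nm P` then `P` contains a nonzero element of `L(m)`, and a nonzero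
element is in finitely many primes.  If `P₁, ..., P_r` were all primes, take `0 ≠ a` in their
product: `1 + a` is a unit, but has a pole at infinity, against GRD.) -/
def GREStmt : Prop :=
  ∀ (R : Type) [CommRing R] [IsDedekindDomain R] (K : Type) [Field K] [Algebra R K]
    [IsFractionRing R K] (O : ValuationSubring K) (π : K), GR R O π →
    (∀ b : ℕ, {P : HeightOneSpectrum R | Nm P ≤ b}.Finite) ∧
    ∀ A : Finset (HeightOneSpectrum R), ∃ P : HeightOneSpectrum R, P ∉ A

/-- GRF: the tail of the sum over the primes.  (Let `m` be minimal with `c Nm P < Q^m`, `c` as in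
GRA: `P` contains `0 ≠ a ∈ L(m)`, and `|(a)| ≤ Q^m` by GRD, so for large `m` at most two such `P`
contain a given `a`.  So at most `2 Q^(m+1)` primes belong to `m`, each of norm at least
`Q^(m-1) / c`; the sum of `2 Q^(m+1) c² / Q^(2m-3)` over `m ≥ m₀` is small.) -/
def GRFStmt : Prop :=
  ∀ (R : Type) [CommRing R] [IsDedekindDomain R] (K : Type) [Field K] [Algebra R K]
    [IsFractionRing R K] (O : ValuationSubring K) (π : K), GR R O π → ∀ ε : ℝ, 0 < ε →
    ∃ b : ℕ, 1 ≤ b ∧ ∀ A : Finset (HeightOneSpectrum R), (∀ P ∈ A, b < Nm P) →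
      ∑ P ∈ A, ((Nm P : ℝ) ^ 2 - 1)⁻¹ ≤ ε

end Pool.T1
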